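import Pool.Agent.Helper39K9.AFSR.Main

/-!
# The average `π`-adic complexity of finite sequences over `ℤ[π]`

For `R = ℤ[π]` with `π ^ 2 = -N`, and for `R = ℤ[π]` with `π ^ d = N`, the average of the
`π`-adic complexity over the `N ^ n` sequences of length `n` over `{0, …, N - 1}` is
`n / 2 + O(1)`.
-/

namespace Pool.Agent.Results.MP_cc6759_lc.AverageFinite

open Module Finset Pool.Agent.Helper39K9

universe u

variable {R : Type u} [CommRing R] {N : ℕ}

/-- `g` is invertible modulo `π`. -/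
def InvertibleMod (π g : R) : Prop := ∃ h, π ∣ g * h - 1

/-- The infinite sequence `t` over `{0, …, N - 1}` is the `π`-adic expansion of `f / g`:
`f ≡ g * (t 0 + t 1 * π + … + t (m - 1) * π ^ (m - 1))` modulo `π ^ m` for every `m`. -/
def Outputs (π f g : R) (t : ℕ → Fin N) : Prop :=
  ∀ m, π ^ m ∣ f - g * ∑ i ∈ Finset.range m, ((t i : ℕ) : R) * π ^ i

open Classical in
/-- The size `max (φ f) (φ g)` of a register with connection element `g` and output `f / g`,
where `φ 0 = -∞`. (The connection element `g` is never `0`.) -/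
noncomputable def regSize (φ : R → ℝ) (f g : R) : ℝ :=
  if f = 0 then φ g else max (φ f) (φ g)

/-- The sizes of the registers which output the infinite sequence `t`. -/
def sizes (φ : R → ℝ) (π : R) (t : ℕ → Fin N) : Set ℝ :=
  {s | ∃ f g : R, InvertibleMod π g ∧ Outputs π f g t ∧ s = regSize φ f g}

/-- The sizes of the registers whose first `n` outputs are `a 0, …, a (n - 1)`. -/
def finSizes (φ : R → ℝ) (π : R) {n : ℕ} (a : Fin n → Fin N) : Set ℝ :=
  {s | ∃ t : ℕ → Fin N, (∀ i : Fin n, t i = a i) ∧ s ∈ sizes φ π t}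

/-- The `π`-adic complexity of a finite sequence: the least size of a register whose first `n`
outputs are `a 0, …, a (n - 1)`. -/
noncomputable def finComplexity (φ : R → ℝ) (π : R) {n : ℕ} (a : Fin n → Fin N) : ℝ :=
  sInf (finSizes φ π a)

/-- The average `E_n^fin` of the `π`-adic complexity over the `N ^ n` sequences of length `n`. -/
noncomputable def averageFin (φ : R → ℝ) (π : R) (N n : ℕ) : ℝ :=
  (∑ a : Fin n → Fin N, finComplexity φ π a) / (N : ℝ) ^ n

/-- Case (i): the size `log_N (u ^ 2 + N * v ^ 2)` of `u + v * π`, `b` being the basis `1, π`. -/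
noncomputable def sizeI (N : ℕ) (b : Basis (Fin 2) ℤ R) (x : R) : ℝ :=
  Real.logb N ((b.repr x 0 : ℝ) ^ 2 + N * (b.repr x 1 : ℝ) ^ 2)

/-- Case (ii): the size `max (d * log_N |u i| + i)`, over the `i` with `u i ≠ 0`, of
`∑ i, u i * π ^ i`, `b` being the basis `1, π, …, π ^ (d - 1)`. -/
noncomputable def sizeII (N d : ℕ) (b : Basis (Fin d) ℤ R) (x : R) : ℝ :=
  sSup {r : ℝ | ∃ i : Fin d, b.repr x i ≠ 0 ∧
    r = d * Real.logb N |(b.repr x i : ℝ)| + ((i : ℕ) : ℝ)}

section Proof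

variable [IsDomain R]

omit [IsDomain R] in
lemma regSize_eq (φ : R → ℝ) (f g : R) : regSize φ f g = AFSR.regSize φ f g := by
  unfold regSize AFSR.regSize
  congr

lemma finSizes_eq (φ : R → ℝ) (π : R) (hdig : ∀ x : R, ∃! c : Fin N, π ∣ x - ((c : ℕ) : R))
    (hπ : π ≠ 0) {n : ℕ} (a : Fin n → Fin N) : finSizes φ π a = AFSR.sizeSet φ π n a := by
  ext s
  constructor
  · rintro ⟨t, ht, f, g, hg, hout, hs⟩
    refine ⟨f, g, hg, ?_, by rw [hs, regSize_eq]⟩
    have h1 := hout n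
    have h2 : AFSR.val π a = ∑ i ∈ Finset.range n, ((t i : ℕ) : R) * π ^ i := by
      unfold AFSR.val
      rw [← Fin.sum_univ_eq_sum_range (fun i => ((t i : ℕ) : R) * π ^ i) n]
      exact Finset.sum_congr rfl fun i _ => by rw [ht i]
    rw [h2]
    exact h1
  · rintro ⟨f, g, hg, hfg, hs⟩
    obtain ⟨t, ht⟩ := AFSR.exists_expansion π hdig f g hg
    refine ⟨t, ?_, f, g, hg, ht, by rw [hs, regSize_eq]⟩
    have h2 : AFSR.val π (fun i : Fin n => t i) =
        ∑ i ∈ Finset.range n, ((t i : ℕ) : R) * π ^ i := by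
      unfold AFSR.val
      rw [← Fin.sum_univ_eq_sum_range (fun i => ((t i : ℕ) : R) * π ^ i) n]
    have h3 : (fun i : Fin n => t i) = a := by
      apply AFSR.val_inj π hdig hπ n
      apply AFSR.dvd_of_inv π hg
      have h4 := dvd_sub hfg (ht n)
      rw [← h2] at h4
      have he : f - g * AFSR.val π a - (f - g * AFSR.val π (fun i : Fin n => t i)) =
        g * (AFSR.val π (fun i : Fin n => t i) - AFSR.val π a) := by ring
      rwa [he] at h4
    intro i
    exact congrFun h3 i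

omit [IsDomain R] in
lemma exists_least {ι : Type*} [Fintype ι] (b : Basis ι ℤ R) (φ : R → ℝ) (π : R)
    (hN : 2 ≤ N) (hd : 0 < Fintype.card ι)
    (hdig : ∀ x : R, ∃! c : Fin N, π ∣ x - ((c : ℕ) : R))
    (hφ : ∀ x ≠ 0, Fintype.card ι * Real.logb N (AFSR.nrm b x) ≤ φ x) {n : ℕ}
    (a : Fin n → Fin N) : ∃ s, IsLeast (AFSR.sizeSet φ π n a) s := by
  have hne : (AFSR.regSize φ (AFSR.val π a) 1) ∈ AFSR.sizeSet φ π n a :=
    ⟨AFSR.val π a, 1, ⟨1, by simp⟩, by simp, rfl⟩
  set s0 := AFSR.regSize φ (AFSR.val π a) 1 with hs0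
  have hN1 : (1 : ℝ) < N := by exact_mod_cast (by omega : 1 < N)
  have hd1 : (0 : ℝ) < Fintype.card ι := by exact_mod_cast hd
  -- bound for the norms of the small fractions
  obtain ⟨L, hL⟩ := exists_nat_gt ((N : ℝ) ^ (s0 / Fintype.card ι))
  have hbound : ∀ f g : R, (∃ h, π ∣ g * h - 1) → AFSR.regSize φ f g ≤ s0 →
      AFSR.nrm b f ≤ L ∧ AFSR.nrm b g ≤ L := by
    intro f g hg hs
    have hg0 := AFSR.ne_zero_of_inv π hN hdig hg
    have hB : 0 < max (AFSR.nrm b f) (AFSR.nrm b g) :=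
      lt_max_of_lt_right (AFSR.nrm_pos b hg0)
    have h1 := AFSR.le_regSize b φ hN hφ hg0 hB (le_refl _) |>.trans hs
    have h2 : Real.logb N (max (AFSR.nrm b f) (AFSR.nrm b g) : ℕ) ≤ s0 / Fintype.card ι := by
      rw [le_div_iff₀ hd1, mul_comm]
      exact h1
    rw [Real.logb_le_iff_le_rpow hN1 (by exact_mod_cast hB)] at h2
    have h3 : ((max (AFSR.nrm b f) (AFSR.nrm b g) : ℕ) : ℝ) ≤ L := h2.trans hL.le
    have h4 : max (AFSR.nrm b f) (AFSR.nrm b g) ≤ L := by exact_mod_cast h3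
    exact ⟨(le_max_left _ _).trans h4, (le_max_right _ _).trans h4⟩
  have hfin : (AFSR.sizeSet φ π n a ∩ Set.Iic s0).Finite := by
    refine (((AFSR.finite_nrm_le b L).prod (AFSR.finite_nrm_le b L)).image
      (fun w : R × R => AFSR.regSize φ w.1 w.2)).subset ?_
    rintro s ⟨⟨f, g, hg, _, rfl⟩, hs⟩
    obtain ⟨h1, h2⟩ := hbound f g hg hs
    exact ⟨(f, g), ⟨h1, h2⟩, rfl⟩
  obtain ⟨s, hs, hmin⟩ := Set.exists_min_image _ id hfin ⟨s0, hne, Set.mem_Iic.mpr le_rfl⟩
  refine ⟨s, hs.1, fun s' hs' => ?_⟩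
  rcases le_total s' s0 with h | h
  · exact hmin s' ⟨hs', h⟩
  · exact (hmin s0 ⟨hne, Set.mem_Iic.mpr le_rfl⟩).trans h

lemma main {ι : Type*} [Fintype ι] (b : Basis ι ℤ R) (φ : R → ℝ) (π : R)
    (hN : 2 ≤ N) (hd : 0 < Fintype.card ι)
    (hdig : ∀ x : R, ∃! c : Fin N, π ∣ x - ((c : ℕ) : R)) (hπ : π ≠ 0)
    (hφ : ∀ x ≠ 0, Fintype.card ι * Real.logb N (AFSR.nrm b x) ≤ φ x)
    (hφ' : ∀ x ≠ 0, φ x ≤ Fintype.card ι * Real.logb N (AFSR.nrm b x) + Fintype.card ι) :
    (∀ (n : ℕ) (a : Fin n → Fin N), IsLeast (finSizes φ π a) (finComplexity φ π a)) ∧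
    ∃ C : ℝ, ∀ n : ℕ, |averageFin φ π N n - (n : ℝ) / 2| ≤ C := by
  classical
  have hleast : ∀ (n : ℕ) (a : Fin n → Fin N),
      IsLeast (AFSR.sizeSet φ π n a) (finComplexity φ π a) := by
    intro n a
    obtain ⟨s, hs⟩ := exists_least b φ π hN hd hdig hφ a
    unfold finComplexity
    rw [finSizes_eq φ π hdig hπ a, hs.csInf_eq]
    exact hs
  refine ⟨fun n a => by rw [finSizes_eq φ π hdig hπ a]; exact hleast n a, ?_⟩
  refine ⟨max ((Fintype.card ι * Real.logb N (AFSR.upC b π) +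
      Fintype.card ι + Fintype.card ι * (2 * Fintype.card ι - 1)) +
      Fintype.card ι * (2 * Fintype.card ι - 1) * (2 * AFSR.cntC b π))
      (Fintype.card ι + Fintype.card ι * (2 * 2 ^ (2 * Fintype.card ι))), fun n => ?_⟩
  have h1 := AFSR.avg_upper b φ π hN hd hdig hπ hφ' n (fun a => finComplexity φ π a)
    (hleast n)
  have h2 := AFSR.avg_lower b φ π hN hd hdig hπ hφ n (fun a => finComplexity φ π a)
    (hleast n)
  have hpos : (0 : ℝ) < (N : ℝ) ^ n := by
    have : (0 : ℝ) < N := by exact_mod_cast (by omega : 0 < N)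
    positivity
  have h3 : averageFin φ π N n ≤ _ := (div_le_iff₀' hpos).mpr h1
  have h4 : _ ≤ averageFin φ π N n := (le_div_iff₀' hpos).mpr h2
  rw [abs_le]
  constructor
  · have := le_max_right ((Fintype.card ι * Real.logb N (AFSR.upC b π) +
      Fintype.card ι + Fintype.card ι * (2 * Fintype.card ι - 1)) +
      Fintype.card ι * (2 * Fintype.card ι - 1) * (2 * AFSR.cntC b π))
      (Fintype.card ι + Fintype.card ι * (2 * 2 ^ (2 * Fintype.card ι)) : ℝ)
    linarith
  · have := le_max_left ((Fintype.card ι * Real.logb N (AFSR.upC b π) +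
      Fintype.card ι + Fintype.card ι * (2 * Fintype.card ι - 1)) +
      Fintype.card ι * (2 * Fintype.card ι - 1) * (2 * AFSR.cntC b π))
      (Fintype.card ι + Fintype.card ι * (2 * 2 ^ (2 * Fintype.card ι)) : ℝ)
    linarith

omit [IsDomain R] in
/-- Divisibility by `π` is read off the constant coefficient. -/
lemma dvd_iff {ι : Type*} [Fintype ι] [DecidableEq ι] (b : Basis ι ℤ R) (π : R) (z : ι)
    (hz : b z = 1) (h1 : ∀ i, i ≠ z → π ∣ b i) (h2 : ∀ i, (N : ℤ) ∣ b.repr (π * b i) z)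
    (h3 : π ∣ (N : R)) (x : R) : π ∣ x ↔ (N : ℤ) ∣ b.repr x z := by
  constructor
  · rintro ⟨y, rfl⟩
    have : π * y = ∑ i, b.repr y i • (π * b i) := by
      conv_lhs => rw [← b.sum_repr y]
      rw [Finset.mul_sum]
      exact Finset.sum_congr rfl fun i _ => mul_smul_comm _ _ _
    rw [this, map_sum, Finsupp.finsetSum_apply]
    refine Finset.dvd_sum fun i _ => ?_
    rw [map_smul, Finsupp.smul_apply, smul_eq_mul]
    exact Dvd.dvd.mul_left (h2 i) _
  · rintro ⟨c, hc⟩
    rw [← b.sum_repr x]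
    refine Finset.dvd_sum fun i _ => ?_
    by_cases hi : i = z
    · rw [hi, hz, hc, zsmul_eq_mul]
      push_cast
      exact Dvd.dvd.mul_right (Dvd.dvd.mul_right h3 _) _
    · rw [zsmul_eq_mul]
      exact Dvd.dvd.mul_left (h1 i hi) _

omit [IsDomain R] in
lemma digits {ι : Type*} [Fintype ι] [DecidableEq ι] (b : Basis ι ℤ R) (π : R) (z : ι)
    (hz : b z = 1) (h1 : ∀ i, i ≠ z → π ∣ b i) (h2 : ∀ i, (N : ℤ) ∣ b.repr (π * b i) z)
    (h3 : π ∣ (N : R)) (hN : 2 ≤ N) (x : R) : ∃! c : Fin N, π ∣ x - ((c : ℕ) : R) := by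
  have hcoef : ∀ c : ℕ, b.repr ((c : ℕ) : R) z = c := by
    intro c
    have : ((c : ℕ) : R) = (c : ℤ) • b z := by rw [hz]; simp
    rw [this, map_smul, Finsupp.smul_apply, b.repr_self]
    simp
  have hiff : ∀ c : ℕ, π ∣ x - ((c : ℕ) : R) ↔ (N : ℤ) ∣ b.repr x z - ((c : ℕ) : ℤ) := by
    intro c
    rw [dvd_iff b π z hz h1 h2 h3, map_sub, Finsupp.sub_apply, hcoef]
  have hNpos : (0 : ℤ) < N := by omega
  refine ⟨⟨(b.repr x z % N).toNat, ?_⟩, ?_, ?_⟩
  · have h5 := Int.emod_nonneg (b.repr x z) (ne_of_gt hNpos)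
    have h6 := Int.emod_lt_of_pos (b.repr x z) hNpos
    omega
  · simp only
    rw [hiff]
    have h5 := Int.emod_nonneg (b.repr x z) (ne_of_gt hNpos)
    rw [Int.toNat_of_nonneg h5]
    exact Int.dvd_self_sub_emod
  · intro c hc
    have hc := (hiff c).mp hc
    apply Fin.ext
    simp only
    have h7 : ((c : ℕ) : ℤ) = b.repr x z % N := by
      have h8 : b.repr x z % N = ((c : ℕ) : ℤ) % N :=
        Int.emod_eq_emod_iff_emod_sub_eq_zero.mpr (Int.emod_eq_zero_of_dvd hc)
      rw [h8, Int.emod_eq_of_lt (by omega) (by have := c.2; omega)]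
    omega

omit [IsDomain R] in
/-- The bounds for the size in case (i). -/
lemma sizeI_bounds (b : Basis (Fin 2) ℤ R) (hN : 2 ≤ N) (x : R) (hx : x ≠ 0) :
    2 * Real.logb N (AFSR.nrm b x) ≤ sizeI N b x ∧
      sizeI N b x ≤ 2 * Real.logb N (AFSR.nrm b x) + 2 := by
  have hN1 : (1 : ℝ) < N := by exact_mod_cast (by omega : 1 < N)
  have hN2 : (2 : ℝ) ≤ N := by exact_mod_cast hN
  set m := AFSR.nrm b x with hm
  have hm0 : (0 : ℝ) < m := by exact_mod_cast AFSR.nrm_pos b hx
  have hu : (b.repr x 0 : ℝ) ^ 2 ≤ (m : ℝ) ^ 2 := by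
    have h := AFSR.coord_le b x 0
    rw [← sq_abs]
    apply pow_le_pow_left₀ (abs_nonneg _)
    have h2 : |(b.repr x 0 : ℝ)| = ((b.repr x 0).natAbs : ℝ) := by
      rw [Nat.cast_natAbs, Int.cast_abs]
    rw [h2]
    exact_mod_cast h
  have hv : (b.repr x 1 : ℝ) ^ 2 ≤ (m : ℝ) ^ 2 := by
    have h := AFSR.coord_le b x 1
    rw [← sq_abs]
    apply pow_le_pow_left₀ (abs_nonneg _)
    have h2 : |(b.repr x 1 : ℝ)| = ((b.repr x 1).natAbs : ℝ) := by
      rw [Nat.cast_natAbs, Int.cast_abs]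
    rw [h2]
    exact_mod_cast h
  have hlow : (m : ℝ) ^ 2 ≤ (b.repr x 0 : ℝ) ^ 2 + N * (b.repr x 1 : ℝ) ^ 2 := by
    have hex : ∃ i, (b.repr x i).natAbs = m := by
      obtain ⟨i, -, hi⟩ := Finset.exists_mem_eq_sup (Finset.univ : Finset (Fin 2))
        Finset.univ_nonempty (fun i => (b.repr x i).natAbs)
      exact ⟨i, hi.symm⟩
    obtain ⟨i, hi⟩ := hex
    have h2 : (m : ℝ) ^ 2 = (b.repr x i : ℝ) ^ 2 := by
      rw [← hi, Nat.cast_natAbs, Int.cast_abs, sq_abs]
    rw [h2]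
    have h3 : (0 : ℝ) ≤ (b.repr x 0 : ℝ) ^ 2 := sq_nonneg _
    have h4 : (0 : ℝ) ≤ (b.repr x 1 : ℝ) ^ 2 := sq_nonneg _
    have hi2 : i = 0 ∨ i = 1 := by
      fin_cases i
      · exact Or.inl rfl
      · exact Or.inr rfl
    rcases hi2 with rfl | rfl
    · nlinarith
    · nlinarith
  have hlog2 : 2 * Real.logb N m = Real.logb N ((m : ℝ) ^ 2) := by
    rw [Real.logb_pow]; norm_num
  unfold sizeI
  constructor
  · rw [hlog2]
    exact Real.logb_le_logb_of_le hN1 (by positivity) hlow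
  · have h5 : 2 * Real.logb N m + 2 = Real.logb N ((N : ℝ) ^ 2 * (m : ℝ) ^ 2) := by
      rw [Real.logb_mul (by positivity) (by positivity), Real.logb_pow, Real.logb_pow,
        Real.logb_self_eq_one hN1]
      push_cast
      ring
    rw [h5]
    apply Real.logb_le_logb_of_le hN1
    · have : (0 : ℝ) < (m : ℝ) ^ 2 := by positivity
      linarith
    · have h6 : (N : ℝ) * (b.repr x 1 : ℝ) ^ 2 ≤ N * (m : ℝ) ^ 2 :=
        mul_le_mul_of_nonneg_left hv (by linarith)
      have h7 : (0 : ℝ) < (m : ℝ) ^ 2 := by positivity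
      have h8 : (1 + (N : ℝ)) * (m : ℝ) ^ 2 ≤ (N : ℝ) ^ 2 * (m : ℝ) ^ 2 := by
        apply mul_le_mul_of_nonneg_right _ h7.le
        nlinarith
      linarith

omit [IsDomain R] in
/-- The bounds for the size in case (ii). -/
lemma sizeII_bounds {d : ℕ} (b : Basis (Fin d) ℤ R) (hN : 2 ≤ N) (hd : 1 ≤ d) (x : R)
    (hx : x ≠ 0) :
    d * Real.logb N (AFSR.nrm b x) ≤ sizeII N d b x ∧
      sizeII N d b x ≤ d * Real.logb N (AFSR.nrm b x) + d := by
  have hN1 : (1 : ℝ) < N := by exact_mod_cast (by omega : 1 < N)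
  set m := AFSR.nrm b x with hm
  have hm0 : 0 < m := AFSR.nrm_pos b hx
  have habs : ∀ i, |(b.repr x i : ℝ)| = ((b.repr x i).natAbs : ℝ) := by
    intro i
    rw [Nat.cast_natAbs, Int.cast_abs]
  have hub : ∀ r ∈ {r : ℝ | ∃ i : Fin d, b.repr x i ≠ 0 ∧
      r = d * Real.logb N |(b.repr x i : ℝ)| + ((i : ℕ) : ℝ)},
      r ≤ d * Real.logb N m + d := by
    rintro r ⟨i, hi, rfl⟩
    have h1 : Real.logb N |(b.repr x i : ℝ)| ≤ Real.logb N m := by
      apply Real.logb_le_logb_of_le hN1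
      · rw [abs_pos]
        exact_mod_cast hi
      · rw [habs]
        exact_mod_cast AFSR.coord_le b x i
    have h2 : ((i : ℕ) : ℝ) ≤ d := by exact_mod_cast i.2.le
    have h3 : (d : ℝ) * Real.logb N |(b.repr x i : ℝ)| ≤ d * Real.logb N m :=
      mul_le_mul_of_nonneg_left h1 (by positivity)
    linarith
  have hmem : ∃ i : Fin d, (b.repr x i).natAbs = m := by
    have : Nonempty (Fin d) := ⟨⟨0, by omega⟩⟩
    obtain ⟨i, -, hi⟩ := Finset.exists_mem_eq_sup (Finset.univ : Finset (Fin d))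
      Finset.univ_nonempty (fun i => (b.repr x i).natAbs)
    exact ⟨i, hi.symm⟩
  obtain ⟨i, hi⟩ := hmem
  have hi0 : b.repr x i ≠ 0 := by
    intro h0
    rw [h0] at hi
    simp at hi
    omega
  have hin : (d * Real.logb N m + ((i : ℕ) : ℝ)) ∈ {r : ℝ | ∃ i : Fin d, b.repr x i ≠ 0 ∧
      r = d * Real.logb N |(b.repr x i : ℝ)| + ((i : ℕ) : ℝ)} := by
    refine ⟨i, hi0, ?_⟩
    rw [habs, hi]
  unfold sizeII
  constructor
  · refine le_trans ?_ (le_csSup ⟨_, hub⟩ hin)
    have : (0 : ℝ) ≤ ((i : ℕ) : ℝ) := by positivity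
    linarith
  · exact csSup_le ⟨_, hin⟩ hub

end Proof

/-- **The average `π`-adic complexity of finite sequences is `n / 2 + O(1)`**, in case (i)
(`π ^ 2 = -N`) and in case (ii) (`π ^ d = N`). In both cases the complexity of every finite
sequence is attained by some register. -/
theorem result :
    (∀ (R : Type u) [CommRing R] [IsDomain R] (N : ℕ) (π : R) (b : Basis (Fin 2) ℤ R),
      2 ≤ N → b 0 = 1 → b 1 = π → π ^ 2 = -(N : R) →
      (∀ (n : ℕ) (a : Fin n → Fin N),
        IsLeast (finSizes (sizeI N b) π a) (finComplexity (sizeI N b) π a)) ∧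
      ∃ C : ℝ, ∀ n : ℕ, |averageFin (sizeI N b) π N n - (n : ℝ) / 2| ≤ C) ∧
    (∀ (R : Type u) [CommRing R] [IsDomain R] (N d : ℕ) (π : R) (b : Basis (Fin d) ℤ R),
      2 ≤ N → 1 ≤ d → (∀ i : Fin d, b i = π ^ (i : ℕ)) → π ^ d = (N : R) →
      (∀ (n : ℕ) (a : Fin n → Fin N),
        IsLeast (finSizes (sizeII N d b) π a) (finComplexity (sizeII N d b) π a)) ∧
      ∃ C : ℝ, ∀ n : ℕ, |averageFin (sizeII N d b) π N n - (n : ℝ) / 2| ≤ C) := by
  constructor
  · intro R _ _ N π b hN hb0 hb1 hπ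
    have h1 : ∀ i : Fin 2, i ≠ 0 → π ∣ b i := by
      intro i hi
      have : i = 1 := by omega
      rw [this, hb1]
    have h2 : ∀ i : Fin 2, (N : ℤ) ∣ b.repr (π * b i) 0 := by
      intro i
      have hi2 : i = 0 ∨ i = 1 := by omega
      rcases hi2 with rfl | rfl
      · rw [hb0, mul_one, ← hb1, b.repr_self]
        simp
      · have : π * b 1 = (-(N : ℤ)) • b 0 := by
          rw [hb1, hb0, ← sq, hπ]
          simp
        rw [this, map_smul, Finsupp.smul_apply, b.repr_self]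
        simp
    have h3 : π ∣ (N : R) := ⟨-π, by rw [mul_neg, ← sq, hπ, neg_neg]⟩
    have hdig := digits b π 0 hb0 h1 h2 h3 hN
    have hπ0 : π ≠ 0 := by
      rw [← hb1]
      exact b.ne_zero 1
    have hcard : Fintype.card (Fin 2) = 2 := Fintype.card_fin 2
    refine main b (sizeI N b) π hN (by simp) hdig hπ0 ?_ ?_
    · intro x hx
      rw [hcard]
      exact_mod_cast (sizeI_bounds b hN x hx).1
    · intro x hx
      rw [hcard]
      exact_mod_cast (sizeI_bounds b hN x hx).2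
  · intro R _ _ N d π b hN hd hb hπ
    have hz : b ⟨0, hd⟩ = 1 := by rw [hb]; simp
    have h3 : π ∣ (N : R) := by
      rw [← hπ]
      exact dvd_pow_self π (by omega)
    have h1 : ∀ i : Fin d, i ≠ ⟨0, hd⟩ → π ∣ b i := by
      intro i hi
      rw [hb]
      apply dvd_pow_self
      intro h0
      exact hi (Fin.ext h0)
    have h2 : ∀ i : Fin d, (N : ℤ) ∣ b.repr (π * b i) ⟨0, hd⟩ := by
      intro i
      by_cases hi : (i : ℕ) + 1 < d
      · have : π * b i = b ⟨i + 1, hi⟩ := by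
          rw [hb, hb, pow_succ]
          ring
        rw [this, b.repr_self, Finsupp.single_apply, if_neg]
        · exact dvd_zero _
        · intro h
          have := congrArg Fin.val h
          simp at this
      · have hi' : (i : ℕ) + 1 = d := by
          have := i.2
          omega
        have : π * b i = (N : ℤ) • b ⟨0, hd⟩ := by
          rw [hz, hb, ← pow_succ', hi', hπ]
          simp
        rw [this, map_smul, Finsupp.smul_apply, b.repr_self]
        simp
    have hdig := digits b π ⟨0, hd⟩ hz h1 h2 h3 hN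
    have hπ0 : π ≠ 0 := by
      rintro rfl
      rw [zero_pow (by omega)] at hπ
      have h4 : b.repr ((N : ℤ) • b ⟨0, hd⟩) ⟨0, hd⟩ = N := by
        rw [map_smul, Finsupp.smul_apply, b.repr_self]
        simp
      rw [hz] at h4
      have h5 : ((N : ℤ) • (1 : R)) = 0 := by
        rw [zsmul_eq_mul, mul_one]
        push_cast
        exact hπ.symm
      rw [h5] at h4
      simp at h4
      omega
    have hcard : Fintype.card (Fin d) = d := Fintype.card_fin d
    refine main b (sizeII N d b) π hN (by rw [hcard]; omega) hdig hπ0 ?_ ?_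
    · intro x hx
      rw [hcard]
      exact (sizeII_bounds b hN hd x hx).1
    · intro x hx
      rw [hcard]
      exact (sizeII_bounds b hN hd x hx).2

end Pool.Agent.Results.MP_cc6759_lc.AverageFinite
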